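import Mathlib

/-!
Extension of points along a generically surjective morphism (Chevalley): if `B` is an algebra of
finite type over a noetherian domain `A`, `A → B` injective and `b : B` is not nilpotent, then there is
`a ≠ 0` in `A` such that every homomorphism `φ : A → Ω` to an algebraically closed field with
`φ a ≠ 0` extends to a homomorphism `ψ : B → Ω` with `ψ b ≠ 0`.
-/

namespace CV

open PrimeSpectrum TensorProduct

/-- A nontrivial algebra of finite type over an algebraically closed field has a point. -/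
theorem exists_point (Ω T : Type*) [Field Ω] [IsAlgClosed Ω] [CommRing T] [Nontrivial T]
    [Algebra Ω T] [Algebra.FiniteType Ω T] : Nonempty (T →ₐ[Ω] Ω) := by
  obtain ⟨m, hm⟩ := Ideal.exists_maximal T
  let := Ideal.Quotient.field m
  have := finite_of_finite_type_of_isJacobsonRing Ω (T ⧸ m)
  have hb : Function.Bijective (algebraMap Ω (T ⧸ m)) :=
    IsAlgClosed.algebraMap_bijective_of_isIntegral
  exact ⟨((AlgEquiv.ofBijective (Algebra.ofId Ω (T ⧸ m)) hb).symm : (T ⧸ m) →ₐ[Ω] Ω).comp
    (Ideal.Quotient.mkₐ Ω m)⟩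

/-- The image of `Spec B` contains a nonempty open subset of `Spec A`. -/
theorem exists_mem_range {A B : Type*} [CommRing A] [IsDomain A] [IsNoetherianRing A] [CommRing B]
    [Algebra A B] [Algebra.FiniteType A B] (h : Function.Injective (algebraMap A B)) :
    ∃ a : A, a ≠ 0 ∧ ∀ p : PrimeSpectrum A, a ∉ p.asIdeal →
      p ∈ Set.range (comap (algebraMap A B)) := by
  have hfp : (algebraMap A B).FinitePresentation := by
    rw [RingHom.finitePresentation_algebraMap]
    exact (Algebra.FinitePresentation.of_finiteType).1 inferInstance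
  obtain ⟨S, hS⟩ := exists_constructibleSetData_iff.2 (isConstructible_range_comap hfp)
  have hbot : (⊥ : PrimeSpectrum A) ∈ Set.range (comap (algebraMap A B)) := by
    have hmin : (⊥ : Ideal A) ∈ minimalPrimes A := by
      rw [IsDomain.minimalPrimes_eq_singleton_bot]
      rfl
    obtain ⟨q, hq, hq'⟩ := Ideal.exists_comap_eq_of_mem_minimalPrimes_of_injective h _ hmin
    exact ⟨⟨q, hq⟩, PrimeSpectrum.ext hq'⟩
  rw [← hS, ConstructibleSetData.toSet] at hbot
  simp only [Set.mem_iUnion] at hbot
  obtain ⟨C, hC, h1, h2⟩ := hbot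
  refine ⟨C.f, ?_, fun p hp => ?_⟩
  · intro h0
    apply h2
    rw [h0, mem_zeroLocus]
    simp
  · rw [← hS, ConstructibleSetData.toSet]
    simp only [Set.mem_iUnion]
    refine ⟨C, hC, ?_, ?_⟩
    · rw [mem_zeroLocus]
      rintro x hx
      rw [mem_zeroLocus] at h1
      have h3 : x ∈ (⊥ : PrimeSpectrum A).asIdeal := h1 hx
      have h4 : x = 0 := h3
      rw [h4]
      exact zero_mem _
    · rw [mem_zeroLocus]
      intro h5
      exact hp (h5 rfl)

/-- Extension of points, first form. -/
theorem exists_ext {A B : Type*} [CommRing A] [IsDomain A] [IsNoetherianRing A] [CommRing B]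
    [Algebra A B] [Algebra.FiniteType A B] (h : Function.Injective (algebraMap A B)) :
    ∃ a : A, a ≠ 0 ∧ ∀ (Ω : Type*) [Field Ω] [IsAlgClosed Ω] (φ : A →+* Ω), φ a ≠ 0 →
      ∃ ψ : B →+* Ω, ∀ x, ψ (algebraMap A B x) = φ x := by
  obtain ⟨a, ha, H⟩ := exists_mem_range h
  refine ⟨a, ha, fun Ω _ _ φ hφ => ?_⟩
  let _ : Algebra A Ω := φ.toAlgebra
  obtain ⟨p, hker⟩ : ∃ p : PrimeSpectrum A, p.asIdeal = RingHom.ker φ :=
    ⟨⟨RingHom.ker φ, RingHom.ker_isPrime φ⟩, rfl⟩
  have hp : p ∈ Set.range (comap (algebraMap A B)) := H p (by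
    rw [hker, RingHom.mem_ker]
    exact hφ)
  have hn : Nontrivial (Ω ⊗[A] B) := by
    have h0 : Nontrivial (p.asIdeal.ResidueField ⊗[A] B) := (nontrivial_iff_mem_rangeComap p).2 hp
    let ι : p.asIdeal.ResidueField →+* Ω := Ideal.ResidueField.lift p.asIdeal φ hker.le (by
      intro x hx
      rw [Submonoid.mem_comap, IsUnit.mem_submonoid_iff, isUnit_iff_ne_zero]
      exact fun h => hx (by
        rw [hker, SetLike.mem_coe, RingHom.mem_ker]
        exact h))
    let _ : Algebra p.asIdeal.ResidueField Ω := ι.toAlgebra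
    have : IsScalarTower A p.asIdeal.ResidueField Ω := IsScalarTower.of_algebraMap_eq (fun x => by
      change φ x = ι (algebraMap A _ x)
      exact (Ideal.ResidueField.lift_algebraMap _ _ _ _ x).symm)
    have h1 : Nontrivial (Ω ⊗[p.asIdeal.ResidueField] (p.asIdeal.ResidueField ⊗[A] B)) :=
      inferInstance
    exact (AlgebraTensorModule.cancelBaseChange A p.asIdeal.ResidueField Ω Ω B).symm.toEquiv.nontrivial
  have : Algebra.FiniteType Ω (Ω ⊗[A] B) := inferInstance
  obtain ⟨χ⟩ := exists_point Ω (Ω ⊗[A] B)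
  refine ⟨(χ : Ω ⊗[A] B →+* Ω).comp
    (Algebra.TensorProduct.includeRight : B →ₐ[A] Ω ⊗[A] B).toRingHom, fun x => ?_⟩
  change χ (1 ⊗ₜ algebraMap A B x) = φ x
  have h1 : (1 : Ω) ⊗ₜ[A] algebraMap A B x = algebraMap Ω (Ω ⊗[A] B) (φ x) := by
    rw [Algebra.TensorProduct.algebraMap_apply, Algebra.algebraMap_eq_smul_one, TensorProduct.tmul_smul,
      TensorProduct.smul_tmul', Algebra.smul_def, mul_one]
    rfl
  rw [h1, AlgHom.commutes]
  rfl

/-- Extension of points, with a nonvanishing condition. -/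
theorem exists_ext_ne {A B : Type*} [CommRing A] [IsDomain A] [IsNoetherianRing A] [CommRing B]
    [IsDomain B] [Algebra A B] [Algebra.FiniteType A B] (h : Function.Injective (algebraMap A B))
    {b : B} (hb : b ≠ 0) :
    ∃ a : A, a ≠ 0 ∧ ∀ (Ω : Type*) [Field Ω] [IsAlgClosed Ω] (φ : A →+* Ω), φ a ≠ 0 →
      ∃ ψ : B →+* Ω, (∀ x, ψ (algebraMap A B x) = φ x) ∧ ψ b ≠ 0 := by
  have h1 : Function.Injective (algebraMap B (Localization.Away b)) :=
    IsLocalization.injective _ (powers_le_nonZeroDivisors_of_noZeroDivisors hb)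
  have h2 : Function.Injective (algebraMap A (Localization.Away b)) := by
    rw [IsScalarTower.algebraMap_eq A B (Localization.Away b)]
    exact h1.comp h
  have : Algebra.FiniteType A (Localization.Away b) :=
    Algebra.FiniteType.trans (inferInstance : Algebra.FiniteType A B)
      (have : Algebra.FinitePresentation B (Localization.Away b) :=
        IsLocalization.Away.finitePresentation b
      inferInstance)
  obtain ⟨a, ha, H⟩ := exists_ext h2
  refine ⟨a, ha, fun Ω _ _ φ hφ => ?_⟩
  obtain ⟨ψ, hψ⟩ := H Ω φ hφ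
  refine ⟨ψ.comp (algebraMap B (Localization.Away b)), fun x => ?_, ?_⟩
  · rw [← hψ x, IsScalarTower.algebraMap_apply A B (Localization.Away b)]
    rfl
  · exact ((IsLocalization.Away.algebraMap_isUnit b).map ψ).ne_zero

end CV
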