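import Mathlib

/-!
Moving a closed point off infinity. `O` is a discrete valuation ring with fraction field `K`, `Q` a
torsion-free `O`-algebra of rank `n + d`, `x : Q → L` a homomorphism to a finite extension `L` of `K` of
degree `d` with `K x(Q) = L`, and `dim Q / π = n`. If the kernel of `x` and `π` generate the unit ideal
(`x` is not integral) then `Q / Ann (ker x)` is free of rank `n` over `O`.

* `CV.annKer x`: the annihilator of the kernel of `x`.
* `CV.move`: the result. `CV.move_le`: in any case `n + d ≤ rank Q`.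
-/

namespace CV

open IsLocalRing TensorProduct

section dim

variable {O B : Type*} [CommRing O] [IsDomain O] [IsDiscreteValuationRing O] [AddCommGroup B]
  [Module O B] [Module.IsTorsionFree O B]

/-- A family of elements of a torsion-free module over a discrete valuation ring which is independent
modulo the maximal ideal and generates up to torsion generates. -/
theorem span_eq_top_of_dim {n : ℕ} (b : Fin n → B)
    (hb : ∀ c : Fin n → O, ∑ i, c i • b i ∈ (maximalIdeal O) • (⊤ : Submodule O B) →
      ∀ i, c i ∈ maximalIdeal O)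
    (hK : ∀ x : B, ∃ c : O, c ≠ 0 ∧ c • x ∈ Submodule.span O (Set.range b)) :
    Submodule.span O (Set.range b) = ⊤ := by
  obtain ⟨ϖ, hϖ⟩ := IsDiscreteValuationRing.exists_irreducible O
  have hϖ0 : ϖ ≠ 0 := hϖ.ne_zero
  have hm : maximalIdeal O = Ideal.span {ϖ} := hϖ.maximalIdeal_eq
  have key : ∀ (k : ℕ) (x : B), ϖ ^ k • x ∈ Submodule.span O (Set.range b) →
      x ∈ Submodule.span O (Set.range b) := by
    intro k
    induction k with
    | zero =>
      intro x hx
      simpa using hx
    | succ k ih =>
      intro x hx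
      apply ih
      rw [pow_succ', mul_smul] at hx
      obtain ⟨c, hc⟩ := (Submodule.mem_span_range_iff_exists_fun O).1 hx
      have h1 : ∑ i, c i • b i ∈ (maximalIdeal O) • (⊤ : Submodule O B) := by
        rw [hc]
        exact Submodule.smul_mem_smul (hm ▸ Ideal.mem_span_singleton_self ϖ) Submodule.mem_top
      have h2 : ∀ i, ∃ d, c i = ϖ * d := fun i => by
        have := hb c h1 i
        rw [hm, Ideal.mem_span_singleton] at this
        exact this
      choose d hd using h2
      have h3 : ϖ • (ϖ ^ k • x - ∑ i, d i • b i) = 0 := by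
        rw [smul_sub, ← hc, Finset.smul_sum, sub_eq_zero]
        refine Finset.sum_congr rfl fun i _ => ?_
        rw [hd i, mul_smul]
      have h4 : ϖ ^ k • x = ∑ i, d i • b i := by
        rcases smul_eq_zero.1 h3 with h | h
        · exact absurd h hϖ0
        · exact sub_eq_zero.1 h
      rw [h4]
      exact Submodule.sum_mem _ fun i _ => Submodule.smul_mem _ _ (Submodule.subset_span ⟨i, rfl⟩)
  rw [eq_top_iff]
  intro x _
  obtain ⟨c, hc, hx⟩ := hK x
  obtain ⟨n, u, rfl⟩ := IsDiscreteValuationRing.eq_unit_mul_pow_irreducible hc hϖ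
  refine key n x ?_
  rw [mul_smul] at hx
  have := Submodule.smul_mem _ (↑u⁻¹ : O) hx
  rwa [smul_smul, Units.inv_mul, one_smul] at this

/-- independence modulo the maximal ideal implies independence -/
theorem linearIndependent_of_mod {n : ℕ} (b : Fin n → B)
    (hb : ∀ c : Fin n → O, ∑ i, c i • b i ∈ (maximalIdeal O) • (⊤ : Submodule O B) →
      ∀ i, c i ∈ maximalIdeal O) : LinearIndependent O b := by
  obtain ⟨ϖ, hϖ⟩ := IsDiscreteValuationRing.exists_irreducible O
  have hm : maximalIdeal O = Ideal.span {ϖ} := hϖ.maximalIdeal_eq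
  rw [Fintype.linearIndependent_iff]
  have key : ∀ (k : ℕ) (c : Fin n → O), ∑ i, c i • b i = 0 → ∀ i, c i ∈ maximalIdeal O ^ k := by
    intro k
    induction k with
    | zero => intro c _ i; simp
    | succ k ih =>
      intro c hc i
      have h1 : ∀ i, ∃ d, c i = ϖ * d := fun i => by
        have := hb c (by rw [hc]; exact zero_mem _) i
        rw [hm, Ideal.mem_span_singleton] at this
        exact this
      choose d hd using h1
      have h2 : ∑ i, d i • b i = 0 := by
        have h3 : ϖ • ∑ i, d i • b i = 0 := by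
          rw [Finset.smul_sum, ← hc]
          refine Finset.sum_congr rfl fun i _ => ?_
          rw [hd i, mul_smul]
        rcases smul_eq_zero.1 h3 with h | h
        · exact absurd h hϖ.ne_zero
        · exact h
      rw [hd i, pow_succ']
      exact Ideal.mul_mem_mul (hm ▸ Ideal.mem_span_singleton_self ϖ) (ih d h2 i)
  intro c hc i
  have h4 : c i ∈ ⨅ k : ℕ, maximalIdeal O ^ k := by
    rw [Submodule.mem_iInf]
    exact fun k => key k c hc i
  rwa [Ideal.iInf_pow_eq_bot_of_isLocalRing _ (Ideal.IsPrime.ne_top inferInstance)] at h4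

/-- the rank is at least the dimension modulo the maximal ideal, and if they are equal the module is
free -/
theorem free_of_rank {n : ℕ} (b : Fin n → B)
    (hb : ∀ c : Fin n → O, ∑ i, c i • b i ∈ (maximalIdeal O) • (⊤ : Submodule O B) →
      ∀ i, c i ∈ maximalIdeal O) (hr : Module.rank O B = (n : Cardinal)) :
    Module.Finite O B ∧ Module.Free O B ∧ Module.finrank O B = n := by
  have hli := linearIndependent_of_mod b hb
  have hsp : Submodule.span O (Set.range b) = ⊤ := by
    refine span_eq_top_of_dim b hb (fun y => ?_)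
    have h5 := Submodule.rank_quotient_add_rank (Submodule.span O (Set.range b))
    have h6 : Module.rank O (Submodule.span O (Set.range b)) = (n : Cardinal) := by
      rw [rank_span hli]
      apply Cardinal.lift_injective.{0}
      rw [Cardinal.mk_range_eq_of_injective hli.injective]
      simp
    rw [hr, h6] at h5
    have h7 : Module.rank O (B ⧸ Submodule.span O (Set.range b)) = 0 := by
      have h8 : Module.rank O (B ⧸ Submodule.span O (Set.range b)) < Cardinal.aleph0 :=
        lt_of_le_of_lt (self_le_add_right _ _) (h5 ▸ Cardinal.natCast_lt_aleph0)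
      obtain ⟨s, hs⟩ := Cardinal.lt_aleph0.1 h8
      rw [hs] at h5 ⊢
      norm_cast at h5 ⊢
      omega
    obtain ⟨a, ha, ha'⟩ := rank_eq_zero_iff.1 h7 (Submodule.Quotient.mk y)
    refine ⟨a, ha, ?_⟩
    rw [← Submodule.Quotient.mk_smul, Submodule.Quotient.mk_eq_zero] at ha'
    exact ha'
  classical
  have hfin : Module.Finite O B := ⟨⟨Finset.univ.image b, by
    rw [Finset.coe_image, Finset.coe_univ, Set.image_univ]
    exact hsp⟩⟩
  exact ⟨hfin, inferInstance, Module.finrank_eq_of_rank_eq hr⟩

end dim

section ann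

variable {O L Q : Type*} [CommRing O] [CommRing Q] [Algebra O Q] [Field L] [Algebra O L]

/-- The annihilator of the kernel of `x`. -/
def annKer (x : Q →ₐ[O] L) : Ideal Q where
  carrier := {h | ∀ a, x a = 0 → h * a = 0}
  add_mem' := fun {h h'} hh hh' a ha => by rw [add_mul, hh a ha, hh' a ha, add_zero]
  zero_mem' := fun a _ => zero_mul a
  smul_mem' := fun c h hh a ha => by rw [smul_eq_mul, mul_assoc, hh a ha, mul_zero]

theorem mem_annKer {x : Q →ₐ[O] L} {h : Q} : h ∈ annKer x ↔ ∀ a, x a = 0 → h * a = 0 := Iff.rfl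

variable [IsDomain O] [IsDiscreteValuationRing O]

theorem annKer_le {x : Q →ₐ[O] L} {a : Q} (ha : x a = 0)
    (ha1 : a - 1 ∈ (maximalIdeal O) • (⊤ : Submodule O Q)) {h : Q}
    (hh : h ∈ annKer x) : h ∈ (maximalIdeal O) • (⊤ : Submodule O Q) := by
  have h1 : h = - (LinearMap.mulLeft O h (a - 1)) := by
    rw [LinearMap.mulLeft_apply, mul_sub, hh a ha, mul_one, zero_sub, neg_neg]
  rw [h1]
  refine neg_mem ?_
  have h2 := Submodule.mem_map_of_mem (f := LinearMap.mulLeft O h) ha1
  rw [Submodule.map_smul''] at h2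
  exact Submodule.smul_mono le_rfl le_top h2

variable [FaithfulSMul O L] [Module.IsTorsionFree O Q]

theorem exists_mem_annKer (x : Q →ₐ[O] L) (h0 : Module.finrank O Q ≠ 0) :
    ∃ h ∈ annKer x, h ≠ 0 := by
  let K := FractionRing O
  let _ : Algebra K L := FractionRing.liftAlgebra O L
  have : IsScalarTower O K L := FractionRing.isScalarTower_liftAlgebra O L
  have hr : Module.finrank K (K ⊗[O] Q) ≠ 0 := by
    rw [(TensorProduct.isBaseChange O Q K).finrank_eq]
    exact h0
  have hf : Module.Finite K (K ⊗[O] Q) := Module.finite_of_finrank_pos (Nat.pos_of_ne_zero hr)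
  have : IsArtinianRing (K ⊗[O] Q) := IsArtinianRing.of_finite K _
  let X : K ⊗[O] Q →ₐ[K] L := Algebra.TensorProduct.lift (Algebra.ofId K L) x
    (fun _ _ => Commute.all _ _)
  have hp : (RingHom.ker X).IsPrime := RingHom.ker_isPrime _
  have h1 : RingHom.ker X ∈ (Module.annihilator (K ⊗[O] Q) (K ⊗[O] Q)).minimalPrimes := by
    apply IsArtinianRing.mem_minimalPrimes
    intro t ht
    have : t = 0 := by
      have := Module.mem_annihilator.1 ht 1
      simpa using this
    rw [this]
    exact zero_mem _
  have h2 := Module.associatedPrimes.minimalPrimes_annihilator_subset_associatedPrimes _ _ h1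
  obtain ⟨-, t, ht⟩ := (isAssociatedPrime_iff (M := K ⊗[O] Q)).1 h2
  have ht1 : ∀ a : K ⊗[O] Q, X a = 0 → a * t = 0 := by
    intro a ha
    have : a ∈ Submodule.colon (⊥ : Submodule (K ⊗[O] Q) (K ⊗[O] Q)) {t} := ht ▸ ha
    rw [Submodule.mem_colon_singleton] at this
    simpa using this
  have ht0 : t ≠ 0 := by
    rintro rfl
    have : (1 : K ⊗[O] Q) ∈ RingHom.ker X := by
      rw [ht, Submodule.mem_colon_singleton]
      simp
    exact one_ne_zero ((map_one X).symm.trans this)
  obtain ⟨⟨q, c⟩, hq⟩ := IsLocalizedModule.surj (nonZeroDivisors O)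
    (TensorProduct.mk O K Q 1) t
  have hq' : (1 : K) ⊗ₜ[O] q = (c : O) • t := hq.symm
  have hc : (c : O) ≠ 0 := nonZeroDivisors.ne_zero c.2
  have hinj : Function.Injective (Algebra.TensorProduct.includeRight : Q →ₐ[O] K ⊗[O] Q) :=
    Algebra.TensorProduct.includeRight_injective (IsFractionRing.injective O K)
  refine ⟨q, fun a ha => ?_, ?_⟩
  · apply hinj
    rw [map_mul, map_zero]
    change (1 : K) ⊗ₜ[O] q * (1 : K) ⊗ₜ[O] a = 0
    rw [hq', smul_mul_assoc, mul_comm, ht1, smul_zero]
    change Algebra.TensorProduct.lift (Algebra.ofId K L) x _ ((1 : K) ⊗ₜ[O] a) = 0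
    rw [Algebra.TensorProduct.lift_tmul, ha, mul_zero]
  · rintro rfl
    rw [TensorProduct.tmul_zero] at hq'
    have : (algebraMap O K c) • t = 0 := by
      rw [algebraMap_smul]
      exact hq'.symm
    rcases smul_eq_zero.1 this with h | h
    · exact hc ((map_eq_zero_iff _ (IsFractionRing.injective O K)).1 h)
    · exact ht0 h

instance annKer_torsionFree (x : Q →ₐ[O] L) : Module.IsTorsionFree O (Q ⧸ annKer x) := by
  refine Module.IsTorsionFree.of_smul_eq_zero fun c y h => ?_
  obtain ⟨y, rfl⟩ := Ideal.Quotient.mk_surjective y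
  by_cases hc : c = 0
  · exact Or.inl hc
  · right
    rw [Ideal.Quotient.eq_zero_iff_mem]
    have h1 : c • y ∈ annKer x := Ideal.Quotient.eq_zero_iff_mem.1 h
    intro a ha
    have h2 : c • (y * a) = 0 := by
      rw [← smul_mul_assoc]
      exact h1 a ha
    rcases smul_eq_zero.1 h2 with h | h
    · exact absurd h hc
    · exact h

/-- the rank of the annihilator is at least the degree of the point -/
theorem rank_annKer [Algebra.IsAlgebraic O L] (x : Q →ₐ[O] L) (h0 : Module.finrank O Q ≠ 0) {d : ℕ}
    (q : Fin d → Q) (hq : LinearIndependent O (fun i => x (q i))) :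
    (d : Cardinal) ≤ Module.rank O ((annKer x).restrictScalars O) := by
  obtain ⟨h, hh, hh0⟩ := exists_mem_annKer x h0
  let v : Fin d → (annKer x).restrictScalars O := fun i => ⟨q i * h, Ideal.mul_mem_left _ _ hh⟩
  have hv : LinearIndependent O v := by
    rw [Fintype.linearIndependent_iff]
    intro c hc
    have h1 : (∑ i, c i • q i) * h = 0 := by
      have := congrArg Subtype.val hc
      rw [AddSubmonoidClass.coe_finsetSum] at this
      rw [Finset.sum_mul]
      refine Eq.trans (Finset.sum_congr rfl fun i _ => ?_) this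
      rw [smul_mul_assoc]
      rfl
    have h2 : x (∑ i, c i • q i) = 0 := by
      by_contra hne
      let y : x.range := ⟨x (∑ i, c i • q i), ⟨_, rfl⟩⟩
      have hy : IsAlgebraic O y :=
        (isAlgebraic_algHom_iff x.range.val Subtype.val_injective).1
          (Algebra.IsAlgebraic.isAlgebraic (x.range.val y))
      obtain ⟨r, hr, ⟨⟨_, ⟨t, rfl⟩⟩, hr'⟩⟩ := hy.exists_nonzero_dvd
        (mem_nonZeroDivisors_of_ne_zero fun h => hne (congrArg Subtype.val h))
      have h3 : x ((∑ i, c i • q i) * t - algebraMap O Q r) = 0 := by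
        rw [map_sub, map_mul, AlgHom.commutes, sub_eq_zero]
        exact (congrArg Subtype.val hr').symm
      have h4 := hh _ h3
      rw [mul_sub, ← mul_assoc, mul_comm h, h1, zero_mul, zero_sub, neg_eq_zero, mul_comm,
        ← Algebra.smul_def] at h4
      rcases smul_eq_zero.1 h4 with h5 | h5
      · exact hr h5
      · exact hh0 h5
    rw [map_sum] at h2
    exact Fintype.linearIndependent_iff.1 hq c (by simpa using h2)
  have := hv.cardinal_lift_le_rank
  rw [Cardinal.mk_fin, Cardinal.lift_natCast, ← Cardinal.lift_natCast.{0}, Cardinal.lift_le] at this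
  exact this

/-- The rank of `Q` is at least the dimension modulo the maximal ideal plus the degree of a point
which is not integral. -/
theorem move_le [Algebra.IsAlgebraic O L] (x : Q →ₐ[O] L) (h0 : Module.finrank O Q ≠ 0) {d : ℕ}
    (q : Fin d → Q) (hq : LinearIndependent O (fun i => x (q i)))
    {a : Q} (ha : x a = 0) (ha1 : a - 1 ∈ (maximalIdeal O) • (⊤ : Submodule O Q))
    {n : ℕ} (b : Fin n → Q)
    (hb : ∀ c : Fin n → O, ∑ i, c i • b i ∈ (maximalIdeal O) • (⊤ : Submodule O Q) →
      ∀ i, c i ∈ maximalIdeal O) :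
    n + d ≤ Module.finrank O Q ∧ (Module.finrank O Q = n + d →
      Module.Finite O (Q ⧸ annKer x) ∧ Module.Free O (Q ⧸ annKer x) ∧
      Module.finrank O (Q ⧸ annKer x) = n ∧
      Module.rank O ((annKer x).restrictScalars O) = (d : Cardinal)) := by
  let b' : Fin n → Q ⧸ annKer x := fun i => Ideal.Quotient.mk _ (b i)
  have hb' : ∀ c : Fin n → O, ∑ i, c i • b' i ∈
      (maximalIdeal O) • (⊤ : Submodule O (Q ⧸ annKer x)) → ∀ i, c i ∈ maximalIdeal O := by
    intro c hc
    apply hb c
    have h1 : (maximalIdeal O) • (⊤ : Submodule O (Q ⧸ annKer x)) =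
        ((maximalIdeal O) • (⊤ : Submodule O Q)).map
          ((Ideal.Quotient.mkₐ O (annKer x)).toLinearMap) := by
      rw [Submodule.map_smul'', Submodule.map_top, LinearMap.range_eq_top.2
        (Ideal.Quotient.mkₐ_surjective O (annKer x))]
    rw [h1, Submodule.mem_map] at hc
    obtain ⟨y, hy, hy'⟩ := hc
    have h2 : y - ∑ i, c i • b i ∈ annKer x := by
      rw [← Ideal.Quotient.eq_zero_iff_mem, map_sub, sub_eq_zero]
      rw [show (Ideal.Quotient.mk (annKer x)) y = (Ideal.Quotient.mkₐ O (annKer x)).toLinearMap y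
        from rfl, hy', map_sum]
      rfl
    have h3 := annKer_le ha ha1 h2
    have h4 := Submodule.sub_mem _ hy h3
    rwa [sub_sub_cancel] at h4
  have hli : LinearIndependent O b' := linearIndependent_of_mod b' hb'
  have hrank : Module.rank O Q = (Module.finrank O Q : Cardinal) :=
    (Cardinal.toNat_eq_iff h0).1 rfl
  have hadd := Submodule.rank_quotient_add_rank ((annKer x).restrictScalars O)
  rw [hrank] at hadd
  have h1 : (n : Cardinal) ≤ Module.rank O (Q ⧸ (annKer x).restrictScalars O) := by
    have := hli.cardinal_lift_le_rank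
    rw [Cardinal.mk_fin, Cardinal.lift_natCast, ← Cardinal.lift_natCast.{0}, Cardinal.lift_le] at this
    exact this
  have h2 := rank_annKer x h0 q hq
  have h3 : Module.rank O (Q ⧸ (annKer x).restrictScalars O) < Cardinal.aleph0 :=
    lt_of_le_of_lt (self_le_add_right _ _) (hadd ▸ Cardinal.natCast_lt_aleph0)
  have h4 : Module.rank O ((annKer x).restrictScalars O) < Cardinal.aleph0 :=
    lt_of_le_of_lt (self_le_add_left _ _) (hadd ▸ Cardinal.natCast_lt_aleph0)
  obtain ⟨r, hr1⟩ := Cardinal.lt_aleph0.1 h3
  obtain ⟨r', hr2⟩ := Cardinal.lt_aleph0.1 h4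
  rw [hr1, hr2] at hadd
  rw [hr1] at h1
  rw [hr2] at h2
  norm_cast at hadd h1 h2
  refine ⟨by omega, fun hfr => ?_⟩
  have hrn : r = n := by omega
  have hr1' : r' = d := by omega
  subst hrn
  subst hr1'
  have hrB : Module.rank O (Q ⧸ annKer x) = (r : Cardinal) := hr1
  obtain ⟨e1, e2, e3⟩ := free_of_rank b' hb' hrB
  exact ⟨e1, e2, e3, hr2⟩

end ann

end CV
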